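import Pool.Agent.Y782.UG.Stm

set_option autoImplicit false

open MeasureTheory ProbabilityTheory Filter Topology
open scoped ENNReal BigOperators

namespace Pool.Agent.Y845.UG

open Pool.Agent.Y782.UG

variable {Δ : ℕ}

theorem vx_nil (n : List ℕ → ℕ) : vx n [] := by
  intro j hj
  simp at hj

theorem vx_cons (t : Tr Δ) (i : ℕ) (w : List ℕ) :
    vx (off t) (i :: w) ↔ i < nch t ∧ vx (off (sub t i)) w := by
  constructor
  · intro h
    refine ⟨?_, ?_⟩
    · have := h 0 (by simp)
      simpa [off, nch] using this
    · intro j hj
      have := h (j + 1) (by simp; omega)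
      simpa [off, sub] using this
  · rintro ⟨h0, h⟩ j hj
    cases j with
    | zero => simpa [off, nch] using h0
    | succ j =>
      have := h j (by simp at hj; omega)
      simpa [off, sub] using this

/-- the unit vector at the root -/
noncomputable def e0 : H2 := lp.single 2 [] (1 : ℂ)

theorem e0_norm : ‖e0‖ = 1 := by
  unfold e0
  rw [lp.norm_single (by norm_num)]
  simp

theorem e0_nil : (e0 : List ℕ → ℂ) [] = 1 := by
  unfold e0
  simp

theorem e0_cons (i : ℕ) (w : List ℕ) : (e0 : List ℕ → ℂ) (i :: w) = 0 := by
  unfold e0
  rw [lp.single_apply_ne]
  simp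

theorem inner_e0 (f : H2) : inner ℂ e0 f = f [] := by
  unfold e0
  rw [lp.inner_single_left]
  simp

/-- restriction of a function to the subtree of the child `i` -/
noncomputable def res (i : ℕ) (f : H2) : H2 :=
  ⟨fun w => f (i :: w), by
    have hf := lp.memℓp f
    show Memℓp (fun w : List ℕ => (f : List ℕ → ℂ) (i :: w)) 2
    rw [memℓp_gen_iff (by norm_num)] at hf ⊢
    exact hf.comp_injective (i := fun w : List ℕ => i :: w) (fun a b h => by simpa using h)⟩

theorem res_apply (i : ℕ) (f : H2) (w : List ℕ) : res i f w = f (i :: w) := rfl

/-- UG-DET -/
theorem det (h1 : S_OP) (h2 : S_RESV) : S_DET := by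
  classical
  intro Δ
  obtain ⟨R, hR⟩ := h1 Δ
  choose A hA using hR
  have key := fun t : Tr Δ => h2 H2 (A t) (hA t).1 e0 e0_norm
  choose μ hμ using key
  refine ⟨R, μ, fun t => (hμ t).1, fun t => ?_, fun t k => ?_, fun t z hz => ?_⟩
  · refine measure_mono_null ?_ (hμ t).2.1
    apply Set.compl_subset_compl.2
    exact Set.Icc_subset_Icc (neg_le_neg (hA t).2.1) (hA t).2.1
  · have hmom : ∀ (k : ℕ) (w : List ℕ), ((A t) ^ k) e0 w = (wn (off t) k w : ℂ) := by
      intro k
      induction k with
      | zero =>
        intro w
        cases w with
        | nil => simp [wn, e0_nil]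
        | cons i w => simp [wn, e0_cons]
      | succ k ih =>
        intro w
        rw [pow_succ', ContinuousLinearMap.mul_apply, (hA t).2.2, wn]
        split_ifs with h3 h4
        · simp only [ih]
          push_cast
          rfl
        · simp only [ih]
          push_cast
          rfl
        · simp
    have h3 := (hμ t).2.2.1 k
    rw [inner_e0, hmom] at h3
    exact_mod_cast h3
  · obtain ⟨⟨f, hf⟩, huniq, -⟩ := (hμ t).2.2.2 z hz
    have hG : G (μ t) z = f [] := by rw [← huniq f hf, inner_e0]
    have hcoord : ∀ w : List ℕ, (A t f) w - z * f w = e0 w := by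
      intro w
      exact congrArg (fun g : H2 => g w) hf
    have hchild : ∀ i ∈ Finset.range (nch t), f [i] = - f [] * G (μ (sub t i)) z := by
      intro i hi
      have hi' : i < nch t := Finset.mem_range.1 hi
      obtain ⟨⟨g, hg⟩, huniq', hinj⟩ := (hμ (sub t i)).2.2.2 z hz
      have hG' : G (μ (sub t i)) z = g [] := by rw [← huniq' g hg, inner_e0]
      have hres : A (sub t i) (res i f) - z • (res i f) = (- f []) • e0 := by
        apply lp.ext
        funext w
        have hc := hcoord (i :: w)
        rw [e0_cons, (hA t).2.2] at hc
        have hv := vx_cons t i w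
        show (A (sub t i) (res i f)) w - z * (res i f) w = (- f []) * e0 w
        rw [(hA (sub t i)).2.2]
        have hoff : off t (i :: w) = off (sub t i) w := rfl
        rw [hoff] at hc
        by_cases hw : vx (off (sub t i)) w
        · rw [if_pos (hv.2 ⟨hi', hw⟩), if_neg (by simp)] at hc
          rw [if_pos hw]
          cases w with
          | nil =>
            rw [if_pos rfl, e0_nil]
            simp only [List.dropLast_singleton, List.cons_append, List.nil_append] at hc
            simp only [res_apply, List.nil_append]
            linear_combination hc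
          | cons a w =>
            rw [if_neg (by simp), e0_cons]
            simp only [res_apply, List.dropLast_cons₂, List.cons_append] at hc ⊢
            linear_combination hc
        · rw [if_neg (fun h => hw (hv.1 h).2)] at hc
          rw [if_neg hw]
          cases w with
          | nil => exact absurd (vx_nil _) hw
          | cons a w =>
            rw [e0_cons]
            simp only [res_apply]
            linear_combination hc
      have hz0 : res i f + (f []) • g = 0 := by
        apply hinj
        rw [map_add, map_smul, smul_add]
        have h5 : A (sub t i) (res i f) + (f []) • A (sub t i) g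
            - (z • res i f + z • (f []) • g)
            = (A (sub t i) (res i f) - z • res i f) + (f []) • (A (sub t i) g - z • g) := by
          rw [smul_sub, smul_comm z (f [])]
          abel
        rw [h5, hres, hg]
        simp
      have h6 : (res i f + (f []) • g) [] = 0 := by rw [hz0]; rfl
      have h7 : f [i] + f [] * g [] = 0 := h6
      rw [hG']
      linear_combination h7
    have hroot := hcoord []
    rw [e0_nil, (hA t).2.2, if_pos (vx_nil _), if_pos rfl] at hroot
    have hsum : ∑ a ∈ Finset.range (off t []), f ([] ++ [a])
        = ∑ a ∈ Finset.range (nch t), (- f [] * G (μ (sub t a)) z) :=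
      Finset.sum_congr rfl hchild
    rw [hsum, ← Finset.mul_sum] at hroot
    have hne : z + ∑ i ∈ Finset.range (nch t), G (μ (sub t i)) z ≠ 0 := by
      intro h8
      have h9 : (0 : ℂ) = 1 := by
        rw [← hroot]
        linear_combination (f []) * h8
      exact zero_ne_one h9
    rw [hG, eq_div_iff hne]
    linear_combination -hroot

end Pool.Agent.Y845.UG
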