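import Pool.Agent.Y782.UG.Base2

set_option autoImplicit false

open MeasureTheory ProbabilityTheory Filter Topology
open scoped ENNReal BigOperators

namespace Pool.Agent.Y845.UG

open Pool.Agent.Y782.UG

variable {Δ : ℕ}

/-- an edge of an infinite block -/
def Cd (r : Tr Δ → ℝ) (u v : Tr Δ) : Prop := Ed r u v ∧ size r u + size r v = ⊤

theorem Ed_symm {r : Tr Δ → ℝ} {u v : Tr Δ} (h : Ed r u v) : Ed r v u :=
  ⟨h.2.1, h.1, by rw [mul_comm]; exact h.2.2⟩

theorem Cd_symm {r : Tr Δ → ℝ} {u v : Tr Δ} : Cd r u v ↔ Cd r v u := by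
  unfold Cd
  rw [add_comm (size r u) (size r v)]
  exact ⟨fun h => ⟨Ed_symm h.1, h.2⟩, fun h => ⟨Ed_symm h.1, h.2⟩⟩

theorem measurableSet_Cd {r : Tr Δ → ℝ} (hr : Measurable r) :
    MeasurableSet {x : Tr Δ × Tr Δ | Cd r x.1 x.2} := by
  have h1 : Measurable (fun x : Tr Δ × Tr Δ => size r x.1 + size r x.2) :=
    ((measurable_size hr).comp measurable_fst).add ((measurable_size hr).comp measurable_snd)
  exact (measurableSet_Ed hr).inter (h1 (MeasurableSet.of_discrete (s := {(⊤ : ℕ∞)})))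

/-- the share of the first end point -/
noncomputable def sh (r D : Tr Δ → ℝ) (u v : Tr Δ) : ℝ :=
  (D u / |r u|) / (D u / |r u| + D v / |r v|)

theorem sh_add {r D : Tr Δ → ℝ} {u v : Tr Δ} (hu : 0 < D u) (hv : 0 < D v) (h : Ed r u v) :
    sh r D u v + sh r D v u = 1 := by
  have h1 : 0 < |r u| := abs_pos.2 h.1
  have h2 : 0 < |r v| := abs_pos.2 h.2.1
  have h3 : 0 < D u / |r u| + D v / |r v| := by positivity
  unfold sh
  rw [add_comm (D v / |r v|), ← add_div]
  exact div_self h3.ne'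

theorem sh_nonneg {r D : Tr Δ → ℝ} {u v : Tr Δ} (hu : 0 < D u) (hv : 0 < D v) :
    0 ≤ sh r D u v := by
  unfold sh
  positivity

open Classical in
/-- UG-T1I -/
theorem t1i : S_T1I := by
  intro Δ p ph _ _ mb hT lam m r D F h
  set I : Set (Tr Δ) := Bk lam r F ∩ {t | size r t = ⊤} with hI
  have mI : MeasurableSet I := (measurableSet_Bk h.mr h.mF).inter
    ((measurable_size h.mr) (MeasurableSet.of_discrete (s := {(⊤ : ℕ∞)})))
  have mC := measurableSet_Cd h.mr
  have hpos : ∀ u v, Ed r u v → 0 < D u ∧ 0 < D v := fun u v huv =>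
    ⟨h.FD _ (good_of_ne h huv.1).1, h.FD _ (good_of_ne h huv.2.1).1⟩
  have mw : Measurable (fun x : Tr Δ × Tr Δ =>
      if Cd r x.1 x.2 then ENNReal.ofReal (sh r D x.1 x.2) else 0) := by
    refine Measurable.ite mC ?_ measurable_const
    apply ENNReal.measurable_ofReal.comp
    have e1 : Measurable (fun x : Tr Δ × Tr Δ => D x.1 / |r x.1|) :=
      (h.mD.comp measurable_fst).div ((h.mr.comp measurable_fst).abs)
    have e2 : Measurable (fun x : Tr Δ × Tr Δ => D x.2 / |r x.2|) :=
      (h.mD.comp measurable_snd).div ((h.mr.comp measurable_snd).abs)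
    exact e1.div (e1.add e2)
  have ms : Measurable (fun x : Tr Δ × Tr Δ => if Cd r x.1 x.2 then (1 : ℝ≥0∞) else 0) :=
    Measurable.ite mC measurable_const measurable_const
  have hhalf := half hT (fun u v => if Cd r u v then ENNReal.ofReal (sh r D u v) else 0)
    (fun u v => if Cd r u v then 1 else 0) mw ms (by
      intro u v
      by_cases hc : Cd r u v
      · obtain ⟨hu, hv⟩ := hpos u v hc.1
        simp only [if_pos hc, if_pos (Cd_symm.1 hc)]
        rw [← ENNReal.ofReal_add (sh_nonneg hu hv) (sh_nonneg hv hu), sh_add hu hv hc.1,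
          ENNReal.ofReal_one]
      · have hc' : ¬ Cd r v u := fun hh => hc (Cd_symm.1 hh)
        simp only [if_neg hc, if_neg hc', add_zero])
  -- the condition along the edges at the root
  have hC : ∀ t, ∀ i < nch t, (Cd r (sub t i) (rem t i) ↔ t ∈ I ∧ r (sub t i) ≠ 0) := by
    intro t i hi
    constructor
    · rintro ⟨h1, h2⟩
      obtain ⟨h3, h4⟩ := (ed_iff h t hi).1 h1
      refine ⟨⟨h3, ?_⟩, h4⟩
      show size r t = ⊤
      rw [size_rem_good r t hi h4, add_comm]
      exact h2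
    · rintro ⟨⟨h3, h5⟩, h4⟩
      refine ⟨(ed_iff h t hi).2 ⟨h3, h4⟩, ?_⟩
      rw [add_comm, ← size_rem_good r t hi h4]
      exact h5
  have hs : ∀ t, ∑ i ∈ Finset.range (nch t),
      (if Cd r (sub t i) (rem t i) then (1 : ℝ≥0∞) else 0) = I.indicator (fun t => (dg r t : ℝ≥0∞)) t := by
    intro t
    by_cases ht : t ∈ I
    · rw [Set.indicator_of_mem ht, dg_eq]
      refine Finset.sum_congr rfl (fun i hi => ?_)
      have := hC t i (Finset.mem_range.1 hi)
      by_cases hr : r (sub t i) ≠ 0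
      · rw [if_pos (this.2 ⟨ht, hr⟩), Set.indicator_of_mem (show sub t i ∈ {u | r u ≠ 0} from hr)]
      · rw [if_neg (fun hh => hr (this.1 hh).2),
          Set.indicator_of_notMem (show sub t i ∉ {u | r u ≠ 0} from hr)]
    · rw [Set.indicator_of_notMem ht]
      refine Finset.sum_eq_zero (fun i hi => ?_)
      exact if_neg (fun hh => ht ((hC t i (Finset.mem_range.1 hi)).1 hh).1)
  have hw : ∀ t, ∑ i ∈ Finset.range (nch t),
      (if Cd r (sub t i) (rem t i) then ENNReal.ofReal (sh r D (sub t i) (rem t i)) else 0)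
        ≤ I.indicator (fun t => ENNReal.ofReal (1 - m t)) t := by
    intro t
    by_cases ht : t ∈ I
    · rw [Set.indicator_of_mem ht]
      have hB : t ∈ Bk lam r F := ht.1
      have hm := m_eq_of_mem h hB
      have hS := sumD_nonneg h t hB.1
      have hDn : ∀ i ∈ Finset.range (nch t), 0 ≤ m t * D (sub t i) := fun i hi =>
        mul_nonneg (h.m0 t) (h.FD _ (hB.1 i (Finset.mem_range.1 hi))).le
      have h1m : 1 - m t = ∑ i ∈ Finset.range (nch t), m t * D (sub t i) := by
        rw [← Finset.mul_sum, hm]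
        have : (1 + ∑ i ∈ Finset.range (nch t), D (sub t i)) ≠ 0 := by positivity
        field_simp
        ring
      rw [h1m, ENNReal.ofReal_sum_of_nonneg hDn]
      refine Finset.sum_le_sum (fun i hi => ?_)
      have hi' := Finset.mem_range.1 hi
      by_cases hr : r (sub t i) ≠ 0
      · rw [if_pos ((hC t i hi').2 ⟨ht, hr⟩)]
        obtain ⟨g1, g2, g3⟩ := rem_good h hB hi' hr
        apply le_of_eq
        congr 1
        have hr0 : 0 < |r (sub t i)| := abs_pos.2 hr
        have hD0 : 0 < D (sub t i) := h.FD _ (hB.1 i hi')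
        have hD1 : 0 < D (rem t i) := h.FD _ g1
        have e1 : D (rem t i) / |r (rem t i)| = D (rem t i) * |r (sub t i)| := by
          rw [g2, abs_div, abs_one, div_div_eq_mul_div, div_one]
        have e2 : |r (sub t i)| ^ 2 = r (sub t i) ^ 2 := sq_abs _
        unfold sh
        rw [e1, hm, ← g3, ← e2]
        have e3 : 0 < D (rem t i) * |r (sub t i)| ^ 2 + D (sub t i) := by positivity
        have e4 : 0 < D (sub t i) / |r (sub t i)| + D (rem t i) * |r (sub t i)| := by positivity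
        field_simp
        ring
      · rw [if_neg (fun hh => hr ((hC t i hi').1 hh).2)]
        exact bot_le
    · rw [Set.indicator_of_notMem ht]
      apply le_of_eq
      refine Finset.sum_eq_zero (fun i hi => ?_)
      exact if_neg (fun hh => ht ((hC t i (Finset.mem_range.1 hi)).1 hh).1)
  have hdg : ∫⁻ t in I, (dg r t : ℝ≥0∞) ∂(Q0 p ph)
      ≤ 2 * ∫⁻ t in I, ENNReal.ofReal (1 - m t) ∂(Q0 p ph) := by
    rw [← lintegral_indicator mI, ← lintegral_indicator mI]
    calc ∫⁻ t, I.indicator (fun t => (dg r t : ℝ≥0∞)) t ∂(Q0 p ph)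
        = ∫⁻ t, ∑ i ∈ Finset.range (nch t),
            (if Cd r (sub t i) (rem t i) then (1 : ℝ≥0∞) else 0) ∂(Q0 p ph) :=
          lintegral_congr (fun t => (hs t).symm)
      _ = 2 * ∫⁻ t, ∑ i ∈ Finset.range (nch t),
            (if Cd r (sub t i) (rem t i) then ENNReal.ofReal (sh r D (sub t i) (rem t i)) else 0)
            ∂(Q0 p ph) := hhalf.symm
      _ ≤ 2 * ∫⁻ t, I.indicator (fun t => ENNReal.ofReal (1 - m t)) t ∂(Q0 p ph) := by
          gcongr with t
          exact hw t
  calc 2 * ∫⁻ t in I, ENNReal.ofReal (m t) ∂(Q0 p ph) + ∫⁻ t in I, (dg r t : ℝ≥0∞) ∂(Q0 p ph)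
      ≤ 2 * ∫⁻ t in I, ENNReal.ofReal (m t) ∂(Q0 p ph)
          + 2 * ∫⁻ t in I, ENNReal.ofReal (1 - m t) ∂(Q0 p ph) := by gcongr
    _ = 2 * ∫⁻ t in I, (ENNReal.ofReal (m t) + ENNReal.ofReal (1 - m t)) ∂(Q0 p ph) := by
        have hmm : Measurable (fun t => ENNReal.ofReal (m t)) := ENNReal.measurable_ofReal.comp h.mm
        rw [← mul_add, lintegral_add_left hmm]
    _ = 2 * ∫⁻ t in I, 1 ∂(Q0 p ph) := by
        congr 1
        refine lintegral_congr (fun t => ?_)
        rw [← ENNReal.ofReal_add (h.m0 t) (by linarith [h.m1 t])]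
        simp
    _ = 2 * Q0 p ph I := by rw [setLIntegral_one]
    _ ≤ 2 * Q0 p ph I := le_rfl

end Pool.Agent.Y845.UG
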